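import Pool.Agent.W973.IP.Defs

/-!
# Project IP: a relation for the minima on spheres
-/

set_option autoImplicit false

namespace Pool.Agent.W880.IP

open Pool.Agent.W973.IP MvPolynomial

/-- the total degree of a partial derivative -/
lemma totalDegree_pderiv {σ : Type} [DecidableEq σ] (f : MvPolynomial σ ℝ) (j : σ) :
    (pderiv j f).totalDegree ≤ f.totalDegree - 1 := by
  conv_lhs => rw [f.as_sum, map_sum]
  refine totalDegree_finsetSum_le fun s hs => ?_
  rw [pderiv_monomial]
  rcases Nat.eq_zero_or_pos (s j) with h | h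
  · rw [h, Nat.cast_zero, mul_zero, monomial_zero, totalDegree_zero]
    exact Nat.zero_le _
  · refine (totalDegree_monomial_le _ _).trans ?_
    have h1 : s = (s - Finsupp.single j 1) + Finsupp.single j 1 := by
      rw [tsub_add_cancel_of_le]
      rw [Finsupp.single_le_iff]
      exact h
    have h2 := le_totalDegree hs
    rw [h1, Finsupp.sum_add_index' (fun _ => rfl) (fun _ _ _ => rfl),
      Finsupp.sum_single_index rfl] at h2
    have h3 : ((s - Finsupp.single j 1).sum fun _ => id) =
        (s - Finsupp.single j 1).sum fun _ e => e := rfl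
    rw [h3]
    omega

lemma hasStrict {n : ℕ} (f : MvPolynomial (Fin n) ℝ) (w : Fin n → ℝ) :
    HasStrictFDerivAt (fun x : Fin n → ℝ => eval x f)
      (∑ j, eval w (pderiv j f) • (ContinuousLinearMap.proj j : (Fin n → ℝ) →L[ℝ] ℝ)) w := by
  induction f using MvPolynomial.induction_on with
  | C a =>
    have h : (∑ j, eval w (pderiv j (C a : MvPolynomial (Fin n) ℝ)) •
        (ContinuousLinearMap.proj j : (Fin n → ℝ) →L[ℝ] ℝ)) = 0 := by
      simp
    rw [h]
    simp only [eval_C]
    exact hasStrictFDerivAt_const a w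
  | add p q hp hq =>
    have h : (∑ j, eval w (pderiv j (p + q)) •
        (ContinuousLinearMap.proj j : (Fin n → ℝ) →L[ℝ] ℝ)) =
        (∑ j, eval w (pderiv j p) • (ContinuousLinearMap.proj j : (Fin n → ℝ) →L[ℝ] ℝ)) +
        ∑ j, eval w (pderiv j q) • (ContinuousLinearMap.proj j : (Fin n → ℝ) →L[ℝ] ℝ) := by
      rw [← Finset.sum_add_distrib]
      refine Finset.sum_congr rfl fun j _ => ?_
      rw [map_add, map_add, add_smul]
    rw [h]
    simp only [eval_add]
    exact hp.add hq
  | mul_X p i hp =>
    have h : (∑ j, eval w (pderiv j (p * MvPolynomial.X i)) •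
        (ContinuousLinearMap.proj j : (Fin n → ℝ) →L[ℝ] ℝ)) =
        eval w p • (ContinuousLinearMap.proj i : (Fin n → ℝ) →L[ℝ] ℝ) +
        w i • ∑ j, eval w (pderiv j p) • (ContinuousLinearMap.proj j : (Fin n → ℝ) →L[ℝ] ℝ) := by
      have e : ∀ j : Fin n, eval w (pderiv j (p * MvPolynomial.X i)) •
          (ContinuousLinearMap.proj j : (Fin n → ℝ) →L[ℝ] ℝ) =
          (if j = i then eval w p • (ContinuousLinearMap.proj j : (Fin n → ℝ) →L[ℝ] ℝ) else 0) +
          w i • (eval w (pderiv j p) • (ContinuousLinearMap.proj j : (Fin n → ℝ) →L[ℝ] ℝ)) := by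
        intro j
        rw [Derivation.leibniz, smul_eq_mul, smul_eq_mul, map_add, map_mul, map_mul, eval_X,
          add_smul, smul_smul]
        congr 1
        split_ifs with hji
        · subst hji
          rw [pderiv_X_self, map_one, mul_one]
        · rw [pderiv_X_of_ne (Ne.symm hji), map_zero, mul_zero, zero_smul]
      rw [Finset.sum_congr rfl fun j _ => e j, Finset.sum_add_distrib, ← Finset.smul_sum]
      congr 1
      rw [Finset.sum_ite_eq' Finset.univ i, if_pos (Finset.mem_univ i)]
    rw [h]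
    have h2 := hp.mul (hasStrictFDerivAt_apply (𝕜 := ℝ) i w)
    simp only [eval_mul, eval_X]
    exact h2

/-- Lagrange multipliers -/
lemma lagrange {n : ℕ} (f : MvPolynomial (Fin n) ℝ) (b w : Vec n) (hw : w ≠ 0)
    (h : ∀ w' : Vec n, ∑ j, w' j ^ 2 = ∑ j, w j ^ 2 →
      eval w f + ∑ j, b j * w j ≤ eval w' f + ∑ j, b j * w' j) :
    ∃ lam : ℝ, ∀ j, b j = lam * w j - eval w (pderiv j f) := by
  have h1 : HasStrictFDerivAt (fun x : Fin n → ℝ => ∑ j, x j ^ 2)
      (∑ j, (2 * w j) • (ContinuousLinearMap.proj j : (Fin n → ℝ) →L[ℝ] ℝ)) w := by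
    refine HasStrictFDerivAt.fun_sum fun j _ => ?_
    have h2 := (hasStrictFDerivAt_apply (𝕜 := ℝ) j w).pow 2
    simpa using h2
  have h2 : HasStrictFDerivAt (fun x : Fin n → ℝ => eval x f + ∑ j, b j * x j)
      ((∑ j, eval w (pderiv j f) • (ContinuousLinearMap.proj j : (Fin n → ℝ) →L[ℝ] ℝ)) +
        ∑ j, b j • (ContinuousLinearMap.proj j : (Fin n → ℝ) →L[ℝ] ℝ)) w := by
    refine (hasStrict f w).add ?_
    refine HasStrictFDerivAt.fun_sum fun j _ => ?_
    exact (hasStrictFDerivAt_apply (𝕜 := ℝ) j w).const_mul (b j)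
  have h3 : IsLocalExtrOn (fun x : Fin n → ℝ => eval x f + ∑ j, b j * x j)
      {x | (fun x : Fin n → ℝ => ∑ j, x j ^ 2) x = (fun x : Fin n → ℝ => ∑ j, x j ^ 2) w} w := by
    left
    refine Filter.eventually_of_mem self_mem_nhdsWithin fun x hx => ?_
    exact h x hx
  obtain ⟨a, c, hac, heq⟩ := h3.exists_multipliers_of_hasStrictFDerivAt_1d h1 h2
  have h4 : ∀ j, a * (2 * w j) + c * (eval w (pderiv j f) + b j) = 0 := by
    intro j
    have h5 := congrArg (fun L : (Fin n → ℝ) →L[ℝ] ℝ => L (Pi.single j 1)) heq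
    simp only [add_apply, smul_apply,
      sum_apply, ContinuousLinearMap.proj_apply, smul_eq_mul,
      zero_apply, Pi.single_apply, mul_ite, mul_one, mul_zero,
      Finset.sum_ite_eq', Finset.mem_univ, if_true] at h5
    exact h5
  have hc : c ≠ 0 := by
    intro hc
    apply hw
    funext j
    have h5 := h4 j
    rw [hc, zero_mul, add_zero] at h5
    have ha : a ≠ 0 := by
      intro ha
      exact hac (by rw [ha, hc]; rfl)
    rcases mul_eq_zero.mp h5 with h6 | h6
    · exact absurd h6 ha
    · simpa using h6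
  refine ⟨-(2 * a / c), fun j => ?_⟩
  have h5 := h4 j
  field_simp
  linarith

lemma aev {σ : Type} (x : σ → ℝ) (p : MvPolynomial σ ℝ) : aeval x p = eval x p :=
  RingHom.congr_fun (coe_aeval_eq_eval x) p

/-- the polynomials of the first block -/
noncomputable def pA {n : ℕ} (f : MvPolynomial (Fin n) ℝ) (j : Fin n) :
    MvPolynomial (Fin n ⊕ Unit) ℝ :=
  MvPolynomial.X (Sum.inr ()) * MvPolynomial.X (Sum.inl j) - rename Sum.inl (pderiv j f)

lemma pA_eval {n : ℕ} (f : MvPolynomial (Fin n) ℝ) (j : Fin n) (y : Fin n ⊕ Unit → ℝ) :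
    aeval y (pA f j) = y (Sum.inr ()) * y (Sum.inl j) -
      eval (fun i => y (Sum.inl i)) (pderiv j f) := by
  unfold pA
  rw [map_sub, map_mul, aeval_X, aeval_X, aeval_rename, aev]
  rfl

lemma pA_deg {n : ℕ} (f : MvPolynomial (Fin n) ℝ) (hf : f.totalDegree ≤ 4) (j : Fin n) :
    (pA f j).totalDegree ≤ 3 := by
  unfold pA
  refine (totalDegree_sub _ _).trans (max_le ?_ ?_)
  · refine (totalDegree_mul _ _).trans ?_
    rw [totalDegree_X, totalDegree_X]
    omega
  · refine (totalDegree_rename_le _ _).trans ((totalDegree_pderiv f j).trans ?_)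
    omega

theorem loj1 (h : S_DC) : S_LOJ1 := by
  intro n f hf
  obtain ⟨F, hF⟩ : ∃ F : Fin n ⊕ Fin 2 → (Fin n ⊕ Unit → ℝ) → ℝ, F = fun x y =>
      Sum.elim (fun j => aeval y (pA f j))
        ![∑ j, y (Sum.inl j) ^ 2, eval (fun i => y (Sum.inl i)) f +
          ∑ j, aeval y (pA f j) * y (Sum.inl j)] x := ⟨_, rfl⟩
  obtain ⟨R, hR0, hRd, hR⟩ := h ℝ (Fin n ⊕ Unit) (Fin n ⊕ Fin 2) 4 ((4 * (n + 2)) ^ (n + 1)) F
    (fun _ => 1) (by simp) (by norm_num) (by simp) (by
      have key : ∀ (p : MvPolynomial (Fin n ⊕ Unit) ℝ), p.totalDegree ≤ 4 →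
          BD ℝ 4 (fun y => aeval y p) := fun p hp =>
        ⟨p, fun i => (degreeOf_le_totalDegree p i).trans hp, fun y => rfl⟩
      intro x
      rcases x with j | x
      · rw [hF]
        exact key _ ((pA_deg f hf j).trans (by norm_num))
      · have h01 : x = 0 ∨ x = 1 := by omega
        rcases h01 with rfl | rfl
        · have := key (∑ j : Fin n, MvPolynomial.X (Sum.inl j) ^ 2) (by
            refine totalDegree_finsetSum_le fun j _ => ?_
            refine (totalDegree_pow _ _).trans ?_
            rw [totalDegree_X]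
            norm_num)
          rw [hF]
          simpa using this
        · have := key (rename Sum.inl f +
            ∑ j : Fin n, pA f j * MvPolynomial.X (Sum.inl j)) (by
            refine (totalDegree_add _ _).trans (max_le ((totalDegree_rename_le _ _).trans hf) ?_)
            refine totalDegree_finsetSum_le fun j _ => ?_
            refine (totalDegree_mul _ _).trans ?_
            rw [totalDegree_X]
            have := pA_deg f hf j
            omega)
          rw [hF]
          have e : (fun y : Fin n ⊕ Unit → ℝ => aeval y (rename Sum.inl f +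
              ∑ j : Fin n, pA f j * MvPolynomial.X (Sum.inl j))) =
              fun y => eval (fun i => y (Sum.inl i)) f +
                ∑ j, aeval y (pA f j) * y (Sum.inl j) := by
            funext y
            rw [map_add, map_sum, aeval_rename, aev]
            congr 1
            refine Finset.sum_congr rfl fun j _ => ?_
            rw [map_mul, aeval_X]
          rw [e] at this
          simpa using this)
    ⟨1, fun i => by rw [← C_1, degreeOf_C]; norm_num, fun y => by simp⟩
  refine ⟨R, hR0, hRd, ?_⟩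
  intro b w hw hmin
  obtain ⟨lam, hlam⟩ := lagrange f b w hw hmin
  have h1 := hR (Sum.elim w fun _ => lam) one_ne_zero
  have h2 : (fun x => F x (Sum.elim w fun _ => lam) / 1) =
      Sum.elim b ![∑ j, w j ^ 2, eval w f + ∑ j, b j * w j] := by
    have hb : ∀ j, aeval (Sum.elim w fun _ => lam) (pA f j) = b j := by
      intro j
      rw [pA_eval, hlam j]
      rfl
    funext x
    rw [div_one, hF]
    dsimp only
    rcases x with j | x
    · exact hb j
    · simp only [Sum.elim_inr, hb]
      rfl
  rw [h2] at h1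
  exact h1

end Pool.Agent.W880.IP
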